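import Pool.Agent.AL.Main
import Pool.Agent.AL.ExpMom

/-!
# Exponential concentration of the entanglement Hamiltonian of gapped ground states (the proof)

For the ground state `ψ` of a translation invariant finite range Hamiltonian on the torus with gap
`Δ` and for every region `A` the variance of `- log ρ_A` in the state `ρ_A` (the capacity of
entanglement) is at most `C |∂A| / Δ`, and `Tr ρ_A exp (θ (- log ρ_A - S_A)) ≤ exp (C θ² |∂A| / Δ)`
for all real `θ` with `C θ² (1 + |∂A| / Δ) ≤ 1`; `C` depends on the interaction only.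
-/

namespace Pool.Agent.Helper62.EFluct

open Pool.Agent.AL
open scoped ComplexOrder

theorem main (d : ℕ) (Ω : Finset (ℤ × ℤ)) (h : Matrix (Ω → Fin d) (Ω → Fin d) ℂ)
    (hh : h.IsHermitian) :
    ∃ C : ℝ, ∀ (L : ℕ) [NeZero L] (ψ : (Tor L → Fin d) → ℂ) (E Δ : ℝ), 0 < Δ →
      GS (ham Ω h L) ψ E Δ → ∀ A : Finset (Tor L),
        ∑ i, (rdm_isHermitian A ψ).eigenvalues i *
          (-Real.log ((rdm_isHermitian A ψ).eigenvalues i) - ent A ψ) ^ 2 ≤ C * bdry A / Δ ∧
        ∀ θ : ℝ, C * θ ^ 2 * (1 + bdry A / Δ) ≤ 1 →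
          ∑ i, (rdm_isHermitian A ψ).eigenvalues i *
            Real.exp (θ * (-Real.log ((rdm_isHermitian A ψ).eigenvalues i) - ent A ψ)) ≤
              Real.exp (C * θ ^ 2 * bdry A / Δ) := by
  have hhN : 0 ≤ hN h := Finset.sum_nonneg fun _ _ => Finset.sum_nonneg fun _ _ => norm_nonneg _
  refine ⟨16 + 16 * NN Ω * hN h, fun L _ ψ E Δ hΔ hg A => ?_⟩
  have hP := poincare hh hΔ hg A
  have hPW := piw hh hΔ hg A
  set lam := (rdm_isHermitian A ψ).eigenvalues with hlam
  have h0 : ∀ i, 0 ≤ lam i := fun i =>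
    (Matrix.posSemidef_self_mul_conjTranspose (mat A ψ)).eigenvalues_nonneg i
  have h1 : ∑ i, lam i = 1 := by
    have h1 := (rdm_isHermitian A ψ).trace_eq_sum_eigenvalues
    have h2 : Matrix.trace (rdm A ψ) = 1 := by
      rw [rdm, Matrix.trace_mul_comm, ← ip_mat]
      have h3 : ip ψ ψ = ((∑ σ, ‖ψ σ‖ ^ 2 : ℝ) : ℂ) := by
        rw [ip, Complex.ofReal_sum]
        refine Finset.sum_congr rfl fun σ _ => ?_
        rw [Complex.star_def, ← Complex.normSq_eq_conj_mul_self, Complex.normSq_eq_norm_sq]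
      rw [h3, hg.1, Complex.ofReal_one]
    rw [h2] at h1
    have h4 : ((∑ i, (rdm_isHermitian A ψ).eigenvalues i : ℝ) : ℂ) = ((1 : ℝ) : ℂ) := by
      rw [Complex.ofReal_sum, Complex.ofReal_one]
      exact h1.symm
    exact Complex.ofReal_injective h4
  have hb0 : (0 : ℝ) ≤ bdry A / Δ := by positivity
  have h5 : (0 : ℝ) ≤ 2 * NN Ω * hN h * bdry A / Δ := by positivity
  have hent : ∑ j, Real.negMulLog (lam j) = ent A ψ := rfl
  refine ⟨?_, fun θ hθ => ?_⟩
  · have hV := hP 4 0 (fun x => - Real.log x) (by norm_num) le_rfl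
      ⟨fun x y hx hy => by
        have := sqrt_log hx hy
        calc _ = Real.sqrt (x * y) * (Real.log x - Real.log y) ^ 2 := by ring
          _ ≤ _ := this, fun x y hx hx0 => absurd hx (not_lt.mpr hx0)⟩
    have hS : ent A ψ = ∑ i, lam i * - Real.log (lam i) := by
      rw [ent]
      refine Finset.sum_congr rfl fun i _ => ?_
      rw [Real.negMulLog]
      ring
    have hle : ∑ i ∈ Finset.univ.filter (fun i => 0 < lam i), lam i ≤ 1 := by
      rw [← h1]
      exact Finset.sum_le_sum_of_subset_of_nonneg (Finset.filter_subset _ _) (fun i _ _ => h0 i)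
    rw [← var_expand h1 (fun i => - Real.log (lam i))] at hV
    rw [hS]
    refine hV.trans ?_
    calc 4 * (2 * NN Ω * hN h * bdry A / Δ) *
          ∑ i ∈ Finset.univ.filter (fun i => 0 < lam i), lam i
        ≤ 4 * (2 * NN Ω * hN h * bdry A / Δ) * 1 :=
          mul_le_mul_of_nonneg_left hle (by positivity)
      _ = 8 * NN Ω * hN h * (bdry A / Δ) := by ring
      _ ≤ (16 + 16 * NN Ω * hN h) * (bdry A / Δ) := by
          refine mul_le_mul_of_nonneg_right ?_ hb0
          have : 0 ≤ (NN Ω : ℝ) * hN h := by positivity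
          linarith
      _ = (16 + 16 * NN Ω * hN h) * bdry A / Δ := by ring
  · have hc0 : 0 ≤ (NN Ω : ℝ) * hN h := by positivity
    have hθ2 : 0 ≤ θ ^ 2 := sq_nonneg θ
    have h6 : 16 * θ ^ 2 ≤ 1 := by
      nlinarith [mul_nonneg hθ2 hb0, mul_nonneg hc0 hθ2,
        mul_nonneg (mul_nonneg hc0 hθ2) hb0]
    have h7 : |θ| ≤ 1 / 4 := by
      refine abs_le_of_sq_le_sq ?_ (by norm_num)
      linarith
    have h8 : 4 * (2 * NN Ω * hN h * bdry A / Δ) * θ ^ 2 ≤ 1 := by
      have h9 : 4 * (2 * NN Ω * hN h * bdry A / Δ) * θ ^ 2 =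
          8 * ((NN Ω : ℝ) * hN h * θ ^ 2 * (bdry A / Δ)) := by ring
      rw [h9]
      nlinarith [mul_nonneg hθ2 hb0, mul_nonneg hc0 hθ2,
        mul_nonneg (mul_nonneg hc0 hθ2) hb0]
    have hE := exp_moment h0 h1 h5 hPW h7 h8
    rw [hent] at hE
    refine hE.trans (Real.exp_le_exp.2 ?_)
    have h10 : 8 * (2 * NN Ω * hN h * bdry A / Δ) * θ ^ 2 =
        16 * ((NN Ω : ℝ) * hN h) * (θ ^ 2 * (bdry A / Δ)) := by ring
    have h11 : (16 + 16 * NN Ω * hN h) * θ ^ 2 * bdry A / Δ =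
        (16 + 16 * ((NN Ω : ℝ) * hN h)) * (θ ^ 2 * (bdry A / Δ)) := by ring
    rw [h10, h11]
    refine mul_le_mul_of_nonneg_right (by linarith) (mul_nonneg hθ2 hb0)

end Pool.Agent.Helper62.EFluct
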