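import Pool.Agent.AL.Main
import Pool.Agent.AL.Approx

/-!
# The approximate Schmidt ranks of gapped ground states (the proof)

For the ground state `ψ` of a translation invariant finite range Hamiltonian on the torus with gap
`Δ` and every region `A`: every unit vector `φ` which is not orthogonal to `ψ` has Schmidt rank at
least `exp (S_A(ψ) - C (1 + √(|∂A| / Δ)) (1 + log (1 / |⟨φ, ψ⟩|)))`, and for every `δ` in `(0, 1)`
there is a unit vector `φ` with `|⟨φ, ψ⟩|² ≥ 1 - δ` and Schmidt rank at most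
`exp (S_A(ψ) + C (1 + √(|∂A| / Δ)) (1 + log (1 / δ)))`.
-/

namespace Pool.Agent.Helper62.ESpread

open Pool.Agent.AL
open scoped ComplexOrder

private theorem evals {L : ℕ} [NeZero L] {d : ℕ} {H : Matrix (Tor L → Fin d) (Tor L → Fin d) ℂ}
    {ψ : (Tor L → Fin d) → ℂ} {E Δ : ℝ} (hg : GS H ψ E Δ) (A : Finset (Tor L)) :
    (∀ i, 0 ≤ (rdm_isHermitian A ψ).eigenvalues i) ∧
      ∑ i, (rdm_isHermitian A ψ).eigenvalues i = 1 := by
  refine ⟨fun i => (Matrix.posSemidef_self_mul_conjTranspose (mat A ψ)).eigenvalues_nonneg i, ?_⟩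
  have h1 := (rdm_isHermitian A ψ).trace_eq_sum_eigenvalues
  have h2 : Matrix.trace (rdm A ψ) = 1 := by
    rw [rdm, Matrix.trace_mul_comm, ← ip_mat]
    have h3 : ip ψ ψ = ((∑ σ, ‖ψ σ‖ ^ 2 : ℝ) : ℂ) := by
      rw [ip, Complex.ofReal_sum]
      refine Finset.sum_congr rfl fun σ _ => ?_
      rw [Complex.star_def, ← Complex.normSq_eq_conj_mul_self, Complex.normSq_eq_norm_sq]
    rw [h3, hg.1, Complex.ofReal_one]
  rw [h2] at h1
  have h4 : ((∑ i, (rdm_isHermitian A ψ).eigenvalues i : ℝ) : ℂ) = ((1 : ℝ) : ℂ) := by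
    rw [Complex.ofReal_sum, Complex.ofReal_one]
    exact h1.symm
  exact Complex.ofReal_injective h4

private theorem lower {L : ℕ} [NeZero L] {d : ℕ} {Ω : Finset (ℤ × ℤ)}
    {h : Matrix (Ω → Fin d) (Ω → Fin d) ℂ} (hh : h.IsHermitian) {ψ : (Tor L → Fin d) → ℂ}
    {E Δ : ℝ} (hΔ : 0 < Δ) (hg : GS (ham Ω h L) ψ E Δ) (A : Finset (Tor L))
    {φ : (Tor L → Fin d) → ℂ} (hφ : Unitv φ) (hne : ip φ ψ ≠ 0) :
    0 < (mat A φ).rank ∧ ent A ψ ≤ Real.log (mat A φ).rank +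
      21 * (1 + Real.sqrt (2 * NN Ω * hN h)) * (1 + Real.sqrt (bdry A / Δ)) *
        (1 + Real.log (1 / ‖ip φ ψ‖)) := by
  have hhN : 0 ≤ hN h := Finset.sum_nonneg fun _ _ => Finset.sum_nonneg fun _ _ => norm_nonneg _
  set K := Real.sqrt (2 * NN Ω * hN h) with hK
  set t := Real.sqrt (bdry A / Δ) with ht
  have hK0 : 0 ≤ K := Real.sqrt_nonneg _
  have ht0 : 0 ≤ t := Real.sqrt_nonneg _
  set s : ℝ := 2 * NN Ω * hN h * bdry A / Δ + 1 with hs
  have hs0 : 0 < s := by positivity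
  have hPI : PI (rdm_isHermitian A ψ).eigenvalues s := by
    have hp := poincare hh hΔ hg A
    intro κ τ G hκ hτ hG
    refine (hp κ τ G hκ hτ hG).trans ?_
    have h1 : 2 * NN Ω * hN h * bdry A / Δ ≤ s := by
      rw [hs]
      linarith
    refine mul_le_mul_of_nonneg_right (mul_le_mul_of_nonneg_left h1 hκ) ?_
    refine Finset.sum_nonneg fun i _ => ?_
    exact (Matrix.posSemidef_self_mul_conjTranspose _).eigenvalues_nonneg i
  have hN1 : ∑ i, ∑ j, ‖mat A φ i j‖ ^ 2 = 1 := by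
    rw [← sum_mat]
    exact hφ
  obtain ⟨w, hw, hwr, hwi⟩ := weights (mat A φ) (mat A ψ) hN1
  rw [← ip_mat] at hwi
  set μ := ‖ip φ ψ‖ with hμ
  have hμ0 : 0 < μ := norm_pos_iff.2 hne
  have h0 : ∀ i, 0 ≤ (rdm_isHermitian A ψ).eigenvalues i := fun i =>
    (Matrix.posSemidef_self_mul_conjTranspose (mat A ψ)).eigenvalues_nonneg i
  have hlam1 : ∑ i, (rdm_isHermitian A ψ).eigenvalues i = 1 := (evals hg A).2
  have hμ1 : μ ≤ 1 := by
    have h5 : ∑ i, w i * (rdm_isHermitian A ψ).eigenvalues i ≤ 1 := by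
      rw [← hlam1]
      refine Finset.sum_le_sum fun i _ => ?_
      exact mul_le_of_le_one_left (h0 i) (hw i).2
    have h6 : μ ^ 2 ≤ 1 := hwi.trans h5
    nlinarith
  have hr1 : (1 : ℝ) ≤ ((mat A φ).rank : ℝ) := by
    have h5 : (mat A φ).rank ≠ 0 := by
      intro h6
      rw [h6, Nat.cast_zero] at hwr
      have h7 : ∑ i, w i * (rdm_isHermitian A ψ).eigenvalues i = 0 := by
        refine Finset.sum_eq_zero fun i _ => ?_
        have h8 : w i ≤ ∑ i, w i :=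
          Finset.single_le_sum (f := w) (fun j _ => (hw j).1) (Finset.mem_univ i)
        rw [le_antisymm (h8.trans hwr) (hw i).1, zero_mul]
      have h9 : μ ^ 2 ≤ 0 := hwi.trans h7.le
      nlinarith
    exact_mod_cast Nat.one_le_iff_ne_zero.2 h5
  have key := tail_bound h0 hlam1 hs0 hPI hr1 hμ0 hμ1 hw hwr hwi
  have hsq : Real.sqrt s ≤ (1 + K) * (1 + t) := by
    rw [Real.sqrt_le_left (by positivity)]
    have h5 : K ^ 2 = 2 * NN Ω * hN h := Real.sq_sqrt (by positivity)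
    have h6 : t ^ 2 = bdry A / Δ := Real.sq_sqrt (by positivity)
    have h7 : s = K ^ 2 * t ^ 2 + 1 := by
      rw [hs, h5, h6]
      ring
    rw [h7]
    nlinarith [mul_nonneg hK0 ht0, mul_nonneg (mul_nonneg hK0 hK0) ht0,
      mul_nonneg (mul_nonneg hK0 ht0) ht0, mul_nonneg hK0 hK0, mul_nonneg ht0 ht0]
  have hl0 : 0 ≤ Real.log (1 / μ) := Real.log_nonneg (by rwa [le_div_iff₀ hμ0, one_mul])
  have hlog : Real.log (2 / μ ^ 2) ≤ 2 * (1 + Real.log (1 / μ)) := by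
    rw [Real.log_div (by norm_num) (by positivity), Real.log_pow, one_div, Real.log_inv]
    have := Real.log_two_lt_d9
    push_cast
    linarith
  have hX : 1 ≤ (1 + K) * (1 + t) := by nlinarith [mul_nonneg hK0 ht0]
  have h7 : ent A ψ ≤ Real.log (mat A φ).rank + (1 + 4 * Real.sqrt s) *
      Real.log (2 / μ ^ 2) + 11 * Real.sqrt s := key
  refine ⟨Nat.pos_of_ne_zero fun h0 => ?_, h7.trans ?_⟩
  · rw [h0, Nat.cast_zero] at hr1
    exact absurd hr1 (by norm_num)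
  have hs1 : 0 ≤ Real.sqrt s := Real.sqrt_nonneg _
  have h8 : (1 + 4 * Real.sqrt s) * Real.log (2 / μ ^ 2) ≤
      (5 * ((1 + K) * (1 + t))) * (2 * (1 + Real.log (1 / μ))) := by
    refine (mul_le_mul_of_nonneg_left hlog (by positivity)).trans ?_
    refine mul_le_mul_of_nonneg_right ?_ (by positivity)
    linarith
  have h9 : 11 * Real.sqrt s ≤ 11 * ((1 + K) * (1 + t)) * (1 + Real.log (1 / μ)) := by
    have h10 : 0 ≤ 11 * ((1 + K) * (1 + t)) * Real.log (1 / μ) := by positivity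
    nlinarith
  calc Real.log (mat A φ).rank + (1 + 4 * Real.sqrt s) * Real.log (2 / μ ^ 2) + 11 * Real.sqrt s
      ≤ Real.log (mat A φ).rank + (5 * ((1 + K) * (1 + t))) * (2 * (1 + Real.log (1 / μ))) +
        11 * ((1 + K) * (1 + t)) * (1 + Real.log (1 / μ)) := by linarith
    _ = Real.log (mat A φ).rank + 21 * (1 + K) * (1 + t) * (1 + Real.log (1 / μ)) := by ring

private theorem upper {L : ℕ} [NeZero L] {d : ℕ} {Ω : Finset (ℤ × ℤ)}
    {h : Matrix (Ω → Fin d) (Ω → Fin d) ℂ} (hh : h.IsHermitian) {ψ : (Tor L → Fin d) → ℂ}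
    {E Δ : ℝ} (hΔ : 0 < Δ) (hg : GS (ham Ω h L) ψ E Δ) (A : Finset (Tor L)) {δ : ℝ} (hδ : 0 < δ)
    (hδ1 : δ < 1) :
    ∃ φ : (Tor L → Fin d) → ℂ, Unitv φ ∧ 1 - δ ≤ ‖ip φ ψ‖ ^ 2 ∧
      ((mat A φ).rank : ℝ) ≤ Real.exp (ent A ψ +
        21 * (1 + Real.sqrt (2 * NN Ω * hN h)) * (1 + Real.sqrt (bdry A / Δ)) *
          (1 + Real.log (1 / δ))) := by
  have hhN : 0 ≤ hN h := Finset.sum_nonneg fun _ _ => Finset.sum_nonneg fun _ _ => norm_nonneg _
  set K := Real.sqrt (2 * NN Ω * hN h) with hK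
  set t := Real.sqrt (bdry A / Δ) with ht
  have hK0 : 0 ≤ K := Real.sqrt_nonneg _
  have ht0 : 0 ≤ t := Real.sqrt_nonneg _
  set s : ℝ := 2 * NN Ω * hN h * bdry A / Δ with hs
  have hs0 : 0 ≤ s := by positivity
  obtain ⟨h0, h1⟩ := evals hg A
  have hlog : 0 < Real.log (1 / δ) := Real.log_pos (by rwa [lt_div_iff₀ hδ, one_mul])
  set x : ℝ := 2 * Real.sqrt (s + 4) * (2 + Real.log (1 / δ)) with hx
  have hq0 : 0 < Real.sqrt (s + 4) := Real.sqrt_pos.2 (by linarith)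
  have hU := upper_tail h0 h1 hs0 (piw hh hΔ hg A) x
  have hxδ : Real.exp (2 - x / (2 * Real.sqrt (s + 4))) = δ := by
    rw [hx, mul_comm (2 * Real.sqrt (s + 4)), mul_div_assoc, div_self (by positivity), mul_one,
      show (2 : ℝ) - (2 + Real.log (1 / δ)) = Real.log δ by
        rw [one_div, Real.log_inv]
        ring, Real.exp_log hδ]
  rw [hxδ] at hU
  obtain ⟨φ, hφ, hr, hi⟩ := approx_rank A hg.1 hδ1 hU
  refine ⟨φ, hφ, hi, hr.trans (Real.exp_le_exp.2 ?_)⟩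
  have hsq : Real.sqrt (s + 4) ≤ 2 * ((1 + K) * (1 + t)) := by
    rw [Real.sqrt_le_left (by positivity)]
    have h5 : K ^ 2 = 2 * NN Ω * hN h := Real.sq_sqrt (by positivity)
    have h6 : t ^ 2 = bdry A / Δ := Real.sq_sqrt (by positivity)
    have h7 : s = K ^ 2 * t ^ 2 := by
      rw [hs, h5, h6]
      ring
    rw [h7]
    nlinarith [mul_nonneg hK0 ht0, mul_nonneg (mul_nonneg hK0 hK0) ht0,
      mul_nonneg (mul_nonneg hK0 ht0) ht0, mul_nonneg hK0 hK0, mul_nonneg ht0 ht0,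
      mul_nonneg (mul_nonneg hK0 ht0) (mul_nonneg hK0 ht0)]
  have hent : ∑ j, Real.negMulLog ((rdm_isHermitian A ψ).eigenvalues j) = ent A ψ := rfl
  rw [hent, hx]
  have h8 : 2 * Real.sqrt (s + 4) * (2 + Real.log (1 / δ)) ≤
      2 * (2 * ((1 + K) * (1 + t))) * (2 * (1 + Real.log (1 / δ))) := by
    refine mul_le_mul (by linarith) (by linarith) (by linarith) (by positivity)
  have h9 : 0 ≤ (1 + K) * (1 + t) * (1 + Real.log (1 / δ)) := by positivity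
  linarith

theorem main (d : ℕ) (Ω : Finset (ℤ × ℤ)) (h : Matrix (Ω → Fin d) (Ω → Fin d) ℂ)
    (hh : h.IsHermitian) :
    ∃ C : ℝ, ∀ (L : ℕ) [NeZero L] (ψ : (Tor L → Fin d) → ℂ) (E Δ : ℝ), 0 < Δ →
      GS (ham Ω h L) ψ E Δ → ∀ A : Finset (Tor L),
        (∀ φ : (Tor L → Fin d) → ℂ, Unitv φ → ip φ ψ ≠ 0 →
          Real.exp (ent A ψ - C * (1 + Real.sqrt (bdry A / Δ)) *
            (1 + Real.log (1 / ‖ip φ ψ‖))) ≤ (mat A φ).rank) ∧
        ∀ δ : ℝ, 0 < δ → δ < 1 → ∃ φ : (Tor L → Fin d) → ℂ, Unitv φ ∧ 1 - δ ≤ ‖ip φ ψ‖ ^ 2 ∧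
          ((mat A φ).rank : ℝ) ≤ Real.exp (ent A ψ + C * (1 + Real.sqrt (bdry A / Δ)) *
            (1 + Real.log (1 / δ))) := by
  refine ⟨21 * (1 + Real.sqrt (2 * NN Ω * hN h)), fun L _ ψ E Δ hΔ hg A =>
    ⟨fun φ hφ hne => ?_, fun δ hδ hδ1 => upper hh hΔ hg A hδ hδ1⟩⟩
  obtain ⟨h1, h2⟩ := lower hh hΔ hg A hφ hne
  have h3 : (0 : ℝ) < ((mat A φ).rank : ℝ) := by exact_mod_cast h1
  rw [← Real.le_log_iff_exp_le h3]
  linarith

end Pool.Agent.Helper62.ESpread
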